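import Mathlib

set_option autoImplicit false

namespace Pool.Agent.Results.MP_9a0911_co.NotRelabellable

/-- `L` is a latin square of order `n` on the symbols `Fin n`: every row and every column
contains each symbol exactly once. -/
def IsLatin {n : ℕ} (L : Fin n → Fin n → Fin n) : Prop :=
  (∀ i, Function.Bijective (L i)) ∧ (∀ j, Function.Bijective (fun i => L i j))

/-- The set of ordered pairs that occur when `L` and `M` are superimposed. -/
def pairs {n : ℕ} (L M : Fin n → Fin n → Fin n) : Finset (Fin n × Fin n) :=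
  Finset.univ.image (fun p : Fin n × Fin n => (L p.1 p.2, M p.1 p.2))

/-- `(L, M)` is `r`-orthogonal: exactly `r` distinct ordered pairs occur. -/
def ROrthogonal {n : ℕ} (r : ℕ) (L M : Fin n → Fin n → Fin n) : Prop :=
  (pairs L M).card = r

/-- `L` has a `2 × 2` latin subsquare in rows `i, i'` and columns `j, j'`. -/
def Sub2 {n : ℕ} (L : Fin n → Fin n → Fin n) (i i' j j' : Fin n) : Prop :=
  L i j = L i' j' ∧ L i j' = L i' j ∧ L i j ≠ L i j'

/-- `(L, M)` is near-orthogonal: it is `(n^2 - 2)`-orthogonal and in some rows `i ≠ i'` and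
columns `j ≠ j'` both squares have a `2 × 2` latin subsquare, on the same two symbols. -/
def NearOrthogonal {n : ℕ} (L M : Fin n → Fin n → Fin n) : Prop :=
  ROrthogonal (n ^ 2 - 2) L M ∧
    ∃ i i' j j' : Fin n, i ≠ i' ∧ j ≠ j' ∧ Sub2 L i i' j j' ∧ Sub2 M i i' j j' ∧
      ({L i j, L i j'} : Finset (Fin n)) = {M i j, M i j'}

/-- First square of the example. -/
def A : Fin 6 → Fin 6 → Fin 6 :=
  ![![4, 1, 0, 5, 3, 2], ![5, 3, 1, 2, 0, 4], ![2, 0, 5, 4, 1, 3],
    ![0, 2, 3, 1, 4, 5], ![3, 5, 4, 0, 2, 1], ![1, 4, 2, 3, 5, 0]]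

/-- Second square of the example. -/
def B : Fin 6 → Fin 6 → Fin 6 :=
  ![![2, 3, 0, 1, 4, 5], ![0, 2, 4, 3, 5, 1], ![4, 0, 2, 5, 1, 3],
    ![3, 1, 5, 2, 0, 4], ![1, 5, 3, 4, 2, 0], ![5, 4, 1, 0, 3, 2]]

lemma A_latin : IsLatin A :=
  ⟨fun i => Finite.injective_iff_bijective.mp ((by decide : ∀ i, Function.Injective (A i)) i),
   fun j => Finite.injective_iff_bijective.mp
    ((by decide : ∀ j, Function.Injective (fun i => A i j)) j)⟩

lemma B_latin : IsLatin B :=
  ⟨fun i => Finite.injective_iff_bijective.mp ((by decide : ∀ i, Function.Injective (B i)) i),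
   fun j => Finite.injective_iff_bijective.mp
    ((by decide : ∀ j, Function.Injective (fun i => B i j)) j)⟩

lemma AB_orth : ROrthogonal 34 A B := by
  unfold ROrthogonal pairs
  decide +kernel

lemma no_common : ∀ i i' j j' : Fin 6, i ≠ i' → j ≠ j' →
    ¬ (A i j = A i' j' ∧ A i j' = A i' j ∧ B i j = B i' j' ∧ B i j' = B i' j) := by
  decide +kernel

/-- There are an `n` and an `(n^2 - 2)`-orthogonal pair of latin squares of order `n` such that no
relabelling `σ ∘ M` of the second square makes the pair near-orthogonal; moreover there are no two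
rows and two columns on which both squares have a `2 × 2` latin subsquare. -/
theorem result :
    ∃ (n : ℕ) (L M : Fin n → Fin n → Fin n), IsLatin L ∧ IsLatin M ∧
      ROrthogonal (n ^ 2 - 2) L M ∧
      (¬ ∃ i i' j j' : Fin n, i ≠ i' ∧ j ≠ j' ∧ Sub2 L i i' j j' ∧ Sub2 M i i' j j') ∧
      ∀ σ : Equiv.Perm (Fin n), ¬ NearOrthogonal L (fun i j => σ (M i j)) := by
  refine ⟨6, A, B, A_latin, B_latin, AB_orth, ?_, ?_⟩
  · rintro ⟨i, i', j, j', hi, hj, h1, h2⟩
    exact no_common i i' j j' hi hj ⟨h1.1, h1.2.1, h2.1, h2.2.1⟩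
  · rintro σ ⟨-, i, i', j, j', hi, hj, h1, h2, -⟩
    exact no_common i i' j j' hi hj ⟨h1.1, h1.2.1, σ.injective h2.1, σ.injective h2.2.1⟩

end Pool.Agent.Results.MP_9a0911_co.NotRelabellable
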